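import Pool.Agent.N208.TS.Main
import Pool.Agent.R918.MidMat

set_option autoImplicit false
set_option linter.unusedSectionVars false

/-!
# Motives in the tensor category of an abelian variety whose Hodge Lie algebra has no full subalgebras

If every full subalgebra of the Lie algebra of the Hodge group of `A` is the whole Lie algebra, and this
Lie algebra is perfect, then every algebraic group with a torsor over the algebraic numbers which
contains the periods of a motive `M` in the tensor category of `A` contains the Mumford-Tate group of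
`M`. This applies to the abelian varieties of middle exterior type.
-/

open Module Function TensorProduct Matrix

noncomputable section

namespace Pool.Agent.N166.ME

open Pool.Agent.Y102 Pool.Agent.W516.DR Pool.Agent.H204R3.GP Pool.Agent.W516.KC
  Pool.Agent.H204R3.SP Pool.Agent.TH119.MX Pool.Agent.R917 Pool.Agent.N208.AM Pool.Agent.R918

variable {g : ℕ} {A : AbVar g} {s n : ℕ} {r : Fin s → ℕ} {B : Fin n → Ten A r} {w : Fin s → ℤ}
  {P : Matrix (Fin n) (Fin n) ℂ} {Wt : Matrix (Fin n) (Fin n) ℚ}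
  {H : Set (Matrix (Fin n) (Fin n) ℂ)}

/-- If the Lie algebra is perfect, the centre acts trivially on all motives. -/
theorem noCentre_of_perfect (h : Mot w B P) (hp : A.NA ≤ der A.NA) : NoCentre B := by
  intro X hX hcomm
  obtain ⟨N, hN, t, X', M', h1, h2⟩ := exists_J h
  have h4 : N ∈ spR B (A.NA : Set (Module.End ℚ A.H1)) := by
    rw [h2]
    exact Submodule.sum_mem _ fun k _ => Submodule.smul_mem _ _ (mem_spR (h1 k).1 (h1 k).2)
  obtain ⟨Nc, hNc, Nd, hNd, hNe⟩ := exists_dec h h4
  obtain ⟨M, hM⟩ := h.st X hX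
  have h5 := (dat h hN hNc hNd hNe).cen (rq M) (mem_spR (hp hX) hM) fun x hx => by
    induction hx using Submodule.span_induction with
    | mem x hx =>
      obtain ⟨Y, hY, M2, hM2, rfl⟩ := hx
      have h6 := (hM.br hM2).uniq h.li (hcomm Y (der_NA_le hY))
      rw [RLie.br_anti, RLie.br_apply, ← rq_mul, ← rq_mul, ← rq_sub, h6, rq_zero, neg_zero]
    | zero => rw [map_zero]
    | add a b _ _ ha hb => rw [map_add, ha, hb, add_zero]
    | smul c a _ ha => rw [map_smul, ha, smul_zero]
  have h6 : M = 0 := by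
    ext i j
    have h7 := congrFun (congrFun h5 i) j
    change ((M i j : ℚ) : ℝ) = 0 at h7
    exact_mod_cast h7
  rw [h6] at hM
  exact hM

/-- **Main theorem.** -/
theorem main_full (hf : ∀ 𝔥 : Submodule ℚ (Module.End ℚ A.H1), A.Full 𝔥 → A.NA ≤ 𝔥)
    (hp : A.NA ≤ der A.NA) (h : Mot w B P) (hW : WRel w B Wt) (hH : PtM P H) {z : ℂ}
    (hz : z ≠ 0) : ∃ x ∈ H, HRel w B z x := by
  obtain ⟨N, hN, t, X, M, h1, h2⟩ := exists_J h
  have hq := hf _ (qM_full h hW hH)
  have hd : A.NA ≤ dq B Wt H := by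
    refine hp.trans ?_
    unfold dq der
    exact Submodule.span_mono fun _ ⟨X, hX, Y, hY, e⟩ => ⟨X, hq hX, Y, hq hY, e⟩
  have h4 : N ∈ spR B (dq B Wt H : Set (Module.End ℚ A.H1)) := by
    rw [h2]
    exact Submodule.sum_mem _ fun k _ => Submodule.smul_mem _ _ (mem_spR (hd (h1 k).1) (h1 k).2)
  have hc := noCentre_of_perfect h hp
  refine ⟨NormedSpace.exp (KK Wt N z), exp_mem hH.grp fun d => ?_, hrel_exp hW hN hz⟩
  unfold KK
  exact ((Wt_mem h hW hH hc d).smul _).add ((stab_spR h hW h4 d).smul _)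

section mid

variable {k m K : ℕ} {a b : Fin k → Fin (2 * m) → Matrix (Fin K) (Fin K) ℂ}
  {p : Matrix (Fin (2 * g)) (Fin K) ℂ} {q : Matrix (Fin K) (Fin (2 * g)) ℂ}

/-- The two properties of the Lie algebra for abelian varieties of middle exterior type. -/
theorem mid_props
    (haa : ∀ σ i τ j, a σ i * a τ j = -(a τ j * a σ i))
    (hbb : ∀ σ i τ j, b σ i * b τ j = -(b τ j * b σ i))
    (hab : ∀ σ i τ j, a σ i * b τ j + b τ j * a σ i = if σ = τ ∧ i = j then 1 else 0)
    (hpq : p * q = 1)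
    (hq : ∀ v, (∃ w, v = q.mulVec w) ↔ ∀ σ, (quant a b σ 1).mulVec v = (m : ℂ) • v)
    (hl : Submodule.span ℂ {Y | ∃ X ∈ A.NA, Y = toC X} =
      Submodule.span ℂ {Y | ∃ σ x, Matrix.trace x = 0 ∧ Y = p * quant a b σ x * q}) :
    (∀ 𝔥 : Submodule ℚ (Module.End ℚ A.H1), A.Full 𝔥 → A.NA ≤ 𝔥) ∧ A.NA ≤ der A.NA := by
  have hcar := car_opl haa hbb hab
  have hs := midSet_of (a := a) (b := b) rfl hpq hq
  have hcx : cx A.NA = slC (opl a) (opl b) (PP p) (QQ q) := by
    rw [← map_lie, hl, slC_eq]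
  refine ⟨fun 𝔥 hf => full_middle hf rfl hcar hs hcx, ?_⟩
  rcases Nat.eq_zero_or_pos (2 * m) with hn0 | hn0
  · intro X hX
    have h1 := bc_mem hX
    rw [hcx] at h1
    obtain ⟨M, -, -, h4⟩ := h1
    have hM : M = 0 := by
      ext p q
      have := p.2.2
      omega
    rw [hM, map_zero, map_zero] at h4
    refine mem_of_bc ?_
    rw [h4]
    exact Submodule.zero_mem _
  · refine Pool.Agent.R917.perfect_of ?_
    rw [hcx]
    exact slC_perfect hcar hs hn0

end mid

end Pool.Agent.N166.ME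

end
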